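import Pool.Agent.helper52.FS.SpecE

open scoped MatrixGroups ContDiff Topology UpperHalfPlane ComplexConjugate
open UpperHalfPlane MeasureTheory Filter Set

set_option autoImplicit false

namespace Pool.Agent.FS

open Pool.Agent.RS
open Pool.Agent.MS (bq BB BA SF pf)
open Pool.Agent.EN (XG MG mkX mkM fl pr)

/-- row AVG with the hypothesis that `θ'` is continuous -/
def AVG2_stmt : Prop := ∀ (Γ : Subgroup SL(2, ℝ)) (C Cθ : ℝ) (χ χa χn χl : SL(2, ℝ) → ℝ) (θ θ' : ℝ → ℝ) (n : ℕ), 1 ≤ C → 1 ≤ Cθ → 1 ≤ n → SF Γ χ χa χn χl → (∀ g, |χn g| ≤ C) → (∀ g, |χl g| ≤ C) → (∀ s, HasDerivAt θ (θ' s) s) → Continuous θ' → (∀ s, |θ' s| ≤ Cθ) →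
  ∃ Ψa Ψn Ψl : SL(2, ℝ) → ℝ, SF Γ (fun g => θ ((∑ i ∈ Finset.range n, χ (g * aM i)) / n)) Ψa Ψn Ψl ∧ (∀ g, |Ψn g| ≤ 2 * C * Cθ) ∧ ∀ g, |Ψl g| ≤ 2 * C * Cθ * Real.exp n

theorem AVG_aM_zero : aM 0 = 1 := by
  apply Subtype.ext
  ext i j
  fin_cases i <;> fin_cases j <;> simp [aM]

theorem AVG_nM_zero : nM 0 = 1 := by
  apply Subtype.ext
  ext i j
  fin_cases i <;> fin_cases j <;> simp [nM]

theorem AVG_lM_zero : lM 0 = 1 := by
  apply Subtype.ext
  ext i j
  fin_cases i <;> fin_cases j <;> simp [lM]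

theorem AVG_proof (hSFP : IR.SFP_stmt) : AVG2_stmt := by
  intro Γ C Cθ χ χa χn χl θ θ' n hC hCθ hn hSF hbn hbl hθ hθc hθ'
  have hS : ∀ i : ℕ, SF Γ (fun g => χ (g * aM i)) (fun g => χa (g * aM i))
      (fun g => Real.exp (-(i : ℝ)) * χn (g * aM i)) (fun g => Real.exp (i : ℝ) * χl (g * aM i)) :=
    fun i => (hSFP Γ χ χa χn χl hSF).2.2 (i : ℝ)
  have hn0 : (0 : ℝ) < n := by exact_mod_cast hn
  have hC0 : (0 : ℝ) < C := by linarith
  have hCθ0 : (0 : ℝ) < Cθ := by linarith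
  set A : SL(2, ℝ) → ℝ := fun g => (∑ i ∈ Finset.range n, χ (g * aM i)) / n with hA
  have hθcont : Continuous θ := continuous_iff_continuousAt.2 fun s => (hθ s).continuousAt
  have hAI : InvG Γ A := by
    refine ⟨?_, ?_⟩
    · exact (continuous_finsetSum _ fun i _ => (hS i).i0.1).div_const _
    · intro γ g
      have : ∀ i ∈ Finset.range n, χ ((γ : SL(2, ℝ)) * g * aM i) = χ (g * aM i) :=
        fun i _ => (hS i).i0.2 γ g
      simp only [hA, Finset.sum_congr rfl this]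
  -- the invariance of the derivatives
  have hinv : ∀ D : ℕ → SL(2, ℝ) → ℝ, (∀ i, InvG Γ (D i)) →
      InvG Γ (fun g => θ' (A g) * ((∑ i ∈ Finset.range n, D i g) / n)) := by
    intro D hD
    refine ⟨?_, ?_⟩
    · exact (hθc.comp hAI.1).mul ((continuous_finsetSum _ fun i _ => (hD i).1).div_const _)
    · intro γ g
      have h1 : ∀ i ∈ Finset.range n, D i ((γ : SL(2, ℝ)) * g) = D i g := fun i _ => (hD i).2 γ g
      simp only [Finset.sum_congr rfl h1, hAI.2 γ g]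
  -- generic chain rule
  have key : ∀ (D : ℕ → SL(2, ℝ) → ℝ) (m : ℝ → SL(2, ℝ)) (_ : m 0 = 1),
      (∀ (i : ℕ) (g : SL(2, ℝ)), HasDerivAt (fun t => χ (g * m t * aM i)) (D i g) 0) →
      ∀ g, HasDerivAt (fun t => θ (A (g * m t))) (θ' (A g) * ((∑ i ∈ Finset.range n, D i g) / n)) 0 := by
    intro D m hm hD g
    have h1 : HasDerivAt (fun t => A (g * m t)) ((∑ i ∈ Finset.range n, D i g) / n) 0 := by
      have h2 : HasDerivAt (fun t => ∑ i ∈ Finset.range n, χ (g * m t * aM i))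
          (∑ i ∈ Finset.range n, D i g) 0 :=
        HasDerivAt.fun_sum (fun i _ => hD i g)
      exact h2.div_const _
    have h3 : HasDerivAt θ (θ' (A g)) ((fun t => A (g * m t)) 0) := by
      have : (fun t => A (g * m t)) 0 = A g := by simp [hm]
      rw [this]; exact hθ _
    exact h3.comp (0 : ℝ) h1
  -- generic bound
  have bd : ∀ (D : ℕ → SL(2, ℝ) → ℝ) (M : ℝ) (g : SL(2, ℝ)), 0 ≤ M → (∀ i ∈ Finset.range n, |D i g| ≤ C * M) →
      |θ' (A g) * ((∑ i ∈ Finset.range n, D i g) / n)| ≤ 2 * C * Cθ * M := by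
    intro D M g hM hD
    have h1 : |∑ i ∈ Finset.range n, D i g| ≤ n * (C * M) := by
      refine (Finset.abs_sum_le_sum_abs _ _).trans ?_
      refine (Finset.sum_le_sum hD).trans ?_
      rw [Finset.sum_const, Finset.card_range, nsmul_eq_mul]
    have h2 : |(∑ i ∈ Finset.range n, D i g) / n| ≤ C * M := by
      rw [abs_div, abs_of_pos hn0, div_le_iff₀ hn0]
      linarith [h1, mul_comm (n : ℝ) (C * M)]
    rw [abs_mul]
    have h3 : |θ' (A g)| * |(∑ i ∈ Finset.range n, D i g) / n| ≤ Cθ * (C * M) :=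
      mul_le_mul (hθ' _) h2 (abs_nonneg _) hCθ0.le
    have h4 : 0 ≤ C * Cθ * M := by positivity
    nlinarith [h3, h4]
  refine ⟨fun g => θ' (A g) * ((∑ i ∈ Finset.range n, χa (g * aM i)) / n),
    fun g => θ' (A g) * ((∑ i ∈ Finset.range n, Real.exp (-(i : ℝ)) * χn (g * aM i)) / n),
    fun g => θ' (A g) * ((∑ i ∈ Finset.range n, Real.exp (i : ℝ) * χl (g * aM i)) / n), ?_, ?_, ?_⟩
  · exact
      { i0 := ⟨hθcont.comp hAI.1, fun γ g => congrArg θ (hAI.2 γ g)⟩
        ia := hinv (fun i g => χa (g * aM i)) fun i => (hS i).ia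
        i1 := hinv (fun i g => Real.exp (-(i : ℝ)) * χn (g * aM i)) fun i => (hS i).i1
        il := hinv (fun i g => Real.exp (i : ℝ) * χl (g * aM i)) fun i => (hS i).il
        da := key (fun i g => χa (g * aM i)) aM AVG_aM_zero fun i g => (hS i).da g
        dn := key (fun i g => Real.exp (-(i : ℝ)) * χn (g * aM i)) nM AVG_nM_zero fun i g => (hS i).dn g
        dl := key (fun i g => Real.exp (i : ℝ) * χl (g * aM i)) lM AVG_lM_zero fun i g => (hS i).dl g }
  · intro g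
    have h := bd (fun i g => Real.exp (-(i : ℝ)) * χn (g * aM i)) 1 g zero_le_one ?_
    · simpa using h
    · intro i _
      rw [abs_mul, abs_of_pos (Real.exp_pos _), mul_one]
      have h1 : Real.exp (-(i : ℝ)) ≤ 1 := by
        rw [Real.exp_le_one_iff]
        have : (0 : ℝ) ≤ i := Nat.cast_nonneg i
        linarith
      calc Real.exp (-(i : ℝ)) * |χn (g * aM i)| ≤ 1 * C :=
            mul_le_mul h1 (hbn _) (abs_nonneg _) zero_le_one
        _ = C := one_mul _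
  · intro g
    refine bd (fun i g => Real.exp (i : ℝ) * χl (g * aM i)) (Real.exp n) g (Real.exp_pos _).le ?_
    intro i hi
    rw [abs_mul, abs_of_pos (Real.exp_pos _)]
    have h1 : Real.exp (i : ℝ) ≤ Real.exp n := by
      apply Real.exp_le_exp.2
      exact_mod_cast (Finset.mem_range.1 hi).le
    calc Real.exp (i : ℝ) * |χl (g * aM i)| ≤ Real.exp n * C :=
          mul_le_mul h1 (hbl _) (abs_nonneg _) (Real.exp_pos _).le
      _ = C * Real.exp n := mul_comm _ _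

end Pool.Agent.FS
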